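import Mathlib
import Pool.Agent.TH325.Tak.Iso

/-!
# Rational levels of the Takagi function and the digit walk

Here `T` is the Takagi function, `L y` its level set in `[0, 1]`, and `D x j` is the number of zeros
minus the number of ones among the first `j` binary digits of `x`.

* A rational level without rational points is finite, and `|D x j| → ∞` at all its points.
* An affirmative answer to Knuth's second question implies an affirmative answer to the first.
* A rational level is uncountable exactly when it contains an irrational point at which `|D x j|`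
  does not tend to infinity; a threshold `s₀` with `q < 2 ^ (s₀ + 1)` suffices.
* An irrational point of a rational level at which `|D x j| → ∞` is isolated in the level; if the
  level is countable, all its accumulation points are rational.
* Quantitative conditions (many visits of a bounded strip, a long repetition in the digits) for
  the existence of a rational point.
-/

set_option autoImplicit false

namespace Pool.Agent.Results.MP_df9865_an.DigitWalk

open Set Filter Topology Pool.Agent.TH325.Tak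

theorem result :
    -- a rational level without rational points is finite and all its digit walks escape
    (∀ y : ℚ, (∀ r : ℚ, (r : ℝ) ∉ L y) →
      (L y).Finite ∧ ∀ x ∈ L y, Tendsto (fun j => |D x j|) atTop atTop) ∧
    -- Q2 implies Q1
    ((∀ x ∈ Icc (0 : ℝ) 1, Irrational x → (∃ y : ℚ, T x = y) → ¬ (L (T x)).Countable) →
      ∀ y : ℚ, (0 : ℝ) ≤ y → (y : ℝ) ≤ 2 / 3 → ∃ r : ℚ, (r : ℝ) ∈ L y) ∧
    -- uncountable rational levels
    (∀ y : ℚ, ¬ (L y).Countable ↔
      ∃ x ∈ L y, Irrational x ∧ ¬ Tendsto (fun j => |D x j|) atTop atTop) ∧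
    -- the same with a threshold
    (∀ (y : ℚ) (q k s₀ : ℕ), 0 < q → (∃ z : ℤ, (q : ℝ) * 2 ^ k * y = z) → 3 ≤ s₀ →
      q < 2 ^ (s₀ + 1) →
      {x | x ∈ L y ∧ ∃ N, ∀ j, N ≤ j → (s₀ : ℤ) ≤ |D x j|}.Countable ∧
      (¬ (L y).Countable ↔ ∃ x ∈ L y, Irrational x ∧ {j | |D x j| < (s₀ : ℤ)}.Infinite)) ∧
    -- isolated points and accumulation points
    (∀ y : ℚ, ∀ x ∈ L y, Irrational x → Tendsto (fun j => |D x j|) atTop atTop →
      ¬ AccPt x (𝓟 (L (y : ℝ)))) ∧
    (∀ y : ℚ, (L (y : ℝ)).Countable → ∀ x : ℝ, AccPt x (𝓟 (L (y : ℝ))) → ∃ r : ℚ, (r : ℝ) = x) ∧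
    -- many visits of a strip
    (∀ (y : ℚ) (p k : ℕ), 0 < p → (∃ z : ℤ, (2 ^ p - 1) * 2 ^ k * (y : ℝ) = z) → ∀ x ∈ L y,
      ∀ (M : ℕ) (A : Finset ℕ), (∀ j ∈ A, k ≤ j ∧ |D x j| ≤ M) →
      p * (2 * M + 1) * (M + 2) < A.card → ∃ r : ℚ, (r : ℝ) ∈ L y) ∧
    -- a long repetition in the digits
    (∀ (y : ℚ) (q k : ℕ), 0 < q → (∃ z : ℤ, (q : ℝ) * 2 ^ k * y = z) → ∀ x ∈ L y,
      ∀ j p m : ℕ, k ≤ j → 0 < p →
      (∀ i, i + p < m * p → digit x (j + i) = digit x (j + i + p)) →
      (q : ℝ) * (2 ^ p - 1) ^ 2 * (|(D x (j + m * p) : ℝ)| + 1) < 2 ^ (m * p) →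
      ∃ r : ℚ, (r : ℝ) ∈ L y) := by
  refine ⟨fun y hno => ⟨finite_of_no_rat hno, fun x hx => escape_of_no_rat hno hx⟩, Q2_imp_Q1,
    fun y => ⟨exists_not_escape, ?_⟩, ?_, fun y x hx hi ht => not_accPt hx hi ht, ?_, ?_, ?_⟩
  · rintro ⟨x, hx, hi, h⟩
    exact not_countable_of_not_escape hx hi h
  · rintro y q k s₀ hq ⟨z, hz⟩ hs0 hqs
    refine ⟨countable_high_abs hq hz hs0 hqs, fun h => exists_low h hq hz hs0 hqs, ?_⟩
    rintro ⟨x, hx, hi, h⟩
    exact not_countable_of_not_escape hx hi (not_escape_of_low h)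
  · intro y hc x hacc
    have hclosed : IsClosed (L (y : ℝ)) :=
      isClosed_Icc.inter (isClosed_eq T_cont continuous_const)
    have hx : x ∈ L (y : ℝ) :=
      hclosed.closure_subset (mem_closure_iff_clusterPt.2 hacc.clusterPt)
    by_contra hcon
    have hi : Irrational x := fun ⟨r, hr⟩ => hcon ⟨r, hr⟩
    by_cases ht : Tendsto (fun j => |D x j|) atTop atTop
    · exact not_accPt hx hi ht hacc
    · exact not_countable_of_not_escape hx hi ht hc
  · rintro y p k hp ⟨z, hz⟩ x hx M A hA hcard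
    obtain ⟨r, hr1, hr2⟩ := rational_of_many' hx.1 hp ⟨z, by rw [hx.2]; exact hz⟩ A hA hcard
    exact ⟨r, hr1, hr2.trans hx.2⟩
  · rintro y q k hq ⟨z, hz⟩ x hx j p m hkj hp hrep hlong
    rcases eq_or_lt_of_le hx.1.2 with h1 | h1
    · refine ⟨1, ?_⟩
      rw [Rat.cast_one, ← h1]
      exact hx
    · obtain ⟨r, hr1, hr2⟩ := rational_of_power hx.1.1 h1 hq (by rw [hx.2]; exact hz) hkj hp
        hrep hlong
      exact ⟨r, hr1, hr2.trans hx.2⟩

end Pool.Agent.Results.MP_df9865_an.DigitWalk
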